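import Pool.Agent.H.MP_ca213f_co.A

namespace Pool.Agent.Results.MP_361b6b_co.No

open Set Metric Pool.Agent.Lib.helper5.Ray Pool.Agent.H.MP_ca213f_co

/-- An unbounded simple curve. -/
def Curve (c : Set E) : Prop :=
  ¬Bornology.IsBounded c ∧ (Nonempty (c ≃ₜ ℝ) ∨ Nonempty (c ≃ₜ Ici (0 : ℝ)))

/-- The sets `φ i '' T` form a locally finite tiling, and the carried arcs form a spiral. -/
def SpiralTiling {ι : Type} (T : Set E) (M : Set (Set E)) (φ : ι → E ≃ᵢ E) : Prop :=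
  Countable ι ∧ Nonempty (T ≃ₜ closedBall (0 : E) 1) ∧ ⋃ i, φ i '' T = univ ∧
    (∀ i j, i ≠ j → Disjoint (interior (φ i '' T)) (interior (φ j '' T))) ∧
    (∀ B, Bornology.IsBounded B → {i | (φ i '' T ∩ B).Nonempty}.Finite) ∧
    M.Finite ∧ M.Nonempty ∧ (∀ A ∈ M, A ⊆ T ∧ Nonempty (A ≃ₜ Icc (0 : ℝ) 1)) ∧
    ∃ C : Set (Set E), C.Finite ∧ (∀ c ∈ C, Curve c) ∧ ⋃₀ C = ⋃ i, ⋃ A ∈ M, φ i '' A

/-- Some translation maps the marked tile `i` onto the marked tile `j`. -/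
def SameAspect {ι : Type} (T : Set E) (M : Set (Set E)) (φ : ι → E ≃ᵢ E) (i j : ι) : Prop :=
  ∃ v : E, (v + ·) '' (φ i '' T) = φ j '' T ∧
    (fun A => (v + ·) '' (φ i '' A)) '' M = (fun A => φ j '' A) '' M

def sd : Fin 3 → Bool × Bool := ![(false, false), (false, true), (true, true)]

theorem mark : ∃ (s : ℤ × ℤ → Fin 3) (m : ℤ × ℤ → ℤ × ℤ),
    (∀ u, Rl 1 u (sd (s u)) (m u)) ∧ m.Surjective ∧ s.Surjective := by
  refine (pick (fun u s w => Rl 1 u (sd s) w) (fun u => ?_)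
    (fun u => if 1 ≤ u.1 + u.2 then if u.2 < u.1 then (u.1 - 1, u.2) else
        if 1 ≤ u.1 then (u.1 - 1, u.2) else (u.1 - 1, u.2 - 1)
      else if u.1 < 0 ∧ u.1 - u.2 < 0 then (u.1 - 1, u.2 - 1) else
        if 0 ≤ u.1 then (u.1, u.2 - 1) else u)
    (fun u => if 1 ≤ u.1 + u.2 then if u.2 < u.1 then 2 else if 1 ≤ u.1 then 0 else 1
      else if u.1 < 0 ∧ u.1 - u.2 < 0 then 2 else if 0 ≤ u.1 then 1 else 0)
    (fun u v h => ?_) fun u => ?_).imp fun s h => h.imp fun m h =>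
      ⟨h.1, fun w => ⟨_, (h.2 w).2⟩, fun k => ?_⟩
  · obtain ⟨x, y⟩ := u
    have : ∀ {p q : ℤ × ℤ} (s), e0 (x, y) (sd s) = p → e1 (x, y) (sd s) = q →
        nx 1 p = q ∨ nx 1 q = p → ∃ s w, Rl 1 (x, y) (sd s) w := by
      rintro _ _ s rfl rfl (h | h)
      exacts [⟨s, _, Or.inl ⟨rfl, h⟩⟩, ⟨s, _, Or.inr ⟨rfl, h⟩⟩]
    by_cases a : x + y ≤ 0 ∧ y ≤ x ∨ 0 ≤ x + y ∧ x < y
    · refine this 0 rfl rfl ?_
      simp only [nx, e0, e1, sd]
      simp
      split_ifs <;> simp <;> omega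
    · by_cases b : x + y = -1 ∧ x < 0
      · refine this 1 rfl rfl ?_
        simp only [nx, e0, e1, sd]
        simp
        split_ifs <;> simp <;> omega
      · refine this 2 rfl rfl ?_
        simp only [nx, e0, e1, sd]
        simp
        split_ifs <;> simp <;> omega
  · simp only [] at h
    split_ifs at h <;> simp only [Prod.ext_iff] at h <;> exact Prod.ext (by omega) (by omega)
  · simp only [Rl, nx, e0, e1]
    split_ifs <;> simp [Prod.ext_iff, sd] at * <;> omega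
  · fin_cases k
    exacts [⟨_, (h.2 (1, 1)).1⟩, ⟨_, (h.2 (0, 0)).1⟩, ⟨_, (h.2 (1, 0)).1⟩]

theorem Q_int {u : ℤ × ℤ} {p : E} (h : p ∈ interior (Q u)) :
    p 0 ∈ Ioo (u.1 : ℝ) (u.1 + 1) ∧ p 1 ∈ Ioo (u.2 : ℝ) (u.2 + 1) := by
  have := fun k => (EuclideanSpace.proj (𝕜 := ℝ) k : E →L[ℝ] ℝ).isOpenMap fun t =>
    ⟨EuclideanSpace.single k t, by simp⟩
  simp only [← interior_Icc]
  exact ⟨interior_mono (by rintro _ ⟨q, hq, rfl⟩; exact hq.1) ((this 0).image_interior_subset _ ⟨p, h, rfl⟩),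
    interior_mono (by rintro _ ⟨q, hq, rfl⟩; exact hq.2) ((this 1).image_interior_subset _ ⟨p, h, rfl⟩)⟩

theorem Q_dist {u : ℤ × ℤ} {p : E} (h : p ∈ Q u) : dist p (pt u) ≤ 2 := by
  rw [EuclideanSpace.dist_eq, Real.sqrt_le_iff, Fin.sum_univ_two]
  obtain ⟨⟨a, b⟩, c, d⟩ := h
  simp only [Real.dist_eq, sq_abs, pt0, pt1]
  exact ⟨by norm_num, by nlinarith⟩

theorem Q_disk : Nonempty (Q 0 ≃ₜ closedBall (0 : E) 1) := by
  have hc : Convex ℝ (Q 0) := ((convex_Icc _ _).linear_preimage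
    (EuclideanSpace.proj (𝕜 := ℝ) 0 : E →L[ℝ] ℝ).toLinearMap).inter ((convex_Icc _ _).linear_preimage
    (EuclideanSpace.proj (𝕜 := ℝ) 1 : E →L[ℝ] ℝ).toLinearMap)
  have cl : IsClosed (Q 0) := (isClosed_Icc.preimage (f := fun p : E => p 0) (by fun_prop)).inter
    (isClosed_Icc.preimage (f := fun p : E => p 1) (by fun_prop))
  obtain ⟨f, -, h, -⟩ := exists_homeomorph_image_interior_closure_frontier_eq_unitBall hc
    ⟨!₂[1 / 2, 1 / 2], interior_maximal (t := {p : E | p 0 ∈ Ioo 0 1 ∧ p 1 ∈ Ioo 0 1})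
      (fun p h => by simpa [Q] using And.intro (Ioo_subset_Icc_self h.1) (Ioo_subset_Icc_self h.2))
      ((isOpen_Ioo.preimage (f := fun p : E => p 0) (by fun_prop)).inter
        (isOpen_Ioo.preimage (f := fun p : E => p 1) (by fun_prop))) (by simp; norm_num)⟩
    (isBounded_closedBall.subset fun p h => Q_dist h)
  rw [cl.closure_eq] at h
  exact ⟨h ▸ f.image _⟩

theorem result : ∃ (ι : Type) (T : Set E) (M : Set (Set E)) (φ : ι → E ≃ᵢ E),
    SpiralTiling T M φ ∧ ∃ a : ι → Fin 3, a.Surjective ∧ ∀ i j, a i = a j ↔ SameAspect T M φ i j := by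
  obtain ⟨c, h1, -, h3⟩ := spiral one_pos
  obtain ⟨s, m, a, b, d⟩ := mark
  refine ⟨ℤ × ℤ, Q 0, {segment ℝ (pt (0, 0)) (pt (1, 0))}, fun u => σ u (sd (s u)),
    ⟨inferInstance, Q_disk, eq_univ_of_forall fun p => mem_iUnion.mpr ⟨(⌊p 0⌋, ⌊p 1⌋), ?_⟩,
      fun u v ne => disjoint_left.mpr fun p x y => ne ?_, fun B hB => ?_, finite_singleton _,
      singleton_nonempty _, ?_, range c, finite_range _, ?_, ?_⟩, s, d, fun u v => ⟨fun h => ?_, ?_⟩⟩
  · rw [σQ]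
    exact ⟨⟨Int.floor_le _, (Int.lt_floor_add_one _).le⟩, Int.floor_le _, (Int.lt_floor_add_one _).le⟩
  · rw [σQ] at x y
    exact Prod.ext ((Int.floor_eq_iff.mpr ⟨(Q_int x).1.1.le, (Q_int x).1.2⟩).symm.trans
      (Int.floor_eq_iff.mpr ⟨(Q_int y).1.1.le, (Q_int y).1.2⟩))
      ((Int.floor_eq_iff.mpr ⟨(Q_int x).2.1.le, (Q_int x).2.2⟩).symm.trans
      (Int.floor_eq_iff.mpr ⟨(Q_int y).2.1.le, (Q_int y).2.2⟩))
  · obtain ⟨r, hr⟩ := hB.subset_closedBall 0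
    have := pos_tend 0 (a := !₂[1, 0]) (b := !₂[0, 1])
      (fun s t h => ⟨by simpa using congrArg (· 0) h, by simpa using congrArg (· 1) h⟩)
      (isCompact_closedBall 0 (r + 2)).compl_mem_cocompact
    refine Finite.subset (Filter.mem_cofinite.mp this) ?_
    rintro u ⟨p, x, y⟩ z
    rw [σQ] at x
    refine z (mem_closedBall.mpr ((dist_triangle_left _ _ p).trans ?_))
    exact (add_le_add (Q_dist x) (mem_closedBall.mp (hr y))).trans (add_comm _ _).le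
  · rintro _ rfl
    exact ⟨M_sub, arc ne01⟩
  · rintro _ ⟨j, rfl⟩
    obtain ⟨γ, x, y, z⟩ := h1 j
    exact z ▸ ⟨(curve x y).1, Or.inr (curve x y).2⟩
  · simp only [biUnion_singleton]
    exact h3.trans (un a b)
  · have : ∀ p, pt v - pt u + σ u (sd (s u)) p = σ v (sd (s v)) p := fun p => by
      ext k
      fin_cases k <;> simp [σ0, σ1, pt0, pt1, h, ← add_assoc]
    exact ⟨pt v - pt u, by simp only [image_image, this], by simp only [image_image, this]⟩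
  · rintro ⟨w, x, y⟩
    simp only [σQ, image_singleton, singleton_eq_singleton_iff] at x y
    have x1 : w + pt u ∈ Q v := x ▸ mem_image_of_mem _ (by simp [Q, pt0, pt1])
    have x2 : w + pt (u + 1) ∈ Q v := x ▸ mem_image_of_mem _ (by simp [Q, pt0, pt1])
    simp [Q, pt0, pt1] at x1 x2
    obtain ⟨_, ⟨α, β, -, -, e, rfl⟩, z⟩ : w + σ u (sd (s u)) !₂[1 / 2, 0] ∈
        σ v (sd (s v)) '' segment ℝ (pt (0, 0)) (pt (1, 0)) := y ▸ mem_image_of_mem _
      (mem_image_of_mem _ ⟨1 / 2, 1 / 2, by norm_num, by norm_num, by norm_num, by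
        ext k
        fin_cases k <;> simp [pt0, pt1]⟩)
    have z0 := congrArg (· 0) z
    have z1 := congrArg (· 1) z
    simp only [σ0, σ1, PiLp.add_apply] at z0 z1
    generalize s u = i, s v = j at *
    fin_cases i <;> fin_cases j <;> simp [sd, pt0, pt1] at z0 z1 ⊢ <;> linarith

end Pool.Agent.Results.MP_361b6b_co.No
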